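import Pool.Agent.U705.RC.Fill

open Pool.Agent.R795.Min

namespace Pool.Agent.U705.RC

variable {P : Type}

theorem bef_left {l r : List P} {c x : P} (hn : (l ++ c :: r).Nodup) :
    [x, c].Sublist (l ++ c :: r) ↔ x ∈ l := by
  constructor
  · intro h
    rw [List.sublist_append_iff] at h
    obtain ⟨l1, l2, h12, h1, h2⟩ := h
    rw [List.nodup_append] at hn
    rcases l1 with _ | ⟨y, l1⟩
    · rw [List.nil_append] at h12
      subst h12
      have hcr : c ∉ r := (List.nodup_cons.mp hn.2.1).1
      rcases List.cons_sublist_cons'.mp h2 with h3 | ⟨_, h3⟩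
      · exact absurd (h3.subset (by simp)) hcr
      · exact absurd (h3.subset (by simp)) hcr
    · rw [List.cons_append, List.cons.injEq] at h12
      obtain ⟨rfl, _⟩ := h12
      exact h1.subset (by simp)
  · intro h
    have h1 : [x].Sublist l := List.singleton_sublist.mpr h
    have h2 : [c].Sublist (c :: r) := by simp
    exact h1.append h2

theorem bef_right {l r : List P} {c x : P} (hn : (l ++ c :: r).Nodup) :
    [c, x].Sublist (l ++ c :: r) ↔ x ∈ r := by
  constructor
  · intro h
    rw [List.sublist_append_iff] at h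
    obtain ⟨l1, l2, h12, h1, h2⟩ := h
    rw [List.nodup_append] at hn
    rcases l1 with _ | ⟨y, l1⟩
    · rw [List.nil_append] at h12
      subst h12
      have hcr : c ∉ r := (List.nodup_cons.mp hn.2.1).1
      rcases List.cons_sublist_cons'.mp h2 with h3 | ⟨_, h3⟩
      · exact absurd (h3.subset (by simp)) hcr
      · exact h3.subset (by simp)
    · rw [List.cons_append, List.cons.injEq] at h12
      obtain ⟨rfl, _⟩ := h12
      exact absurd rfl (hn.2.2 c (h1.subset (by simp)) c (by simp))
  · intro h
    have h1 : [x].Sublist r := List.singleton_sublist.mpr h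
    have h2 : [c, x].Sublist (c :: r) := h1.cons₂ c
    exact h2.trans (List.sublist_append_right _ _)

theorem bef_asymm {σ : List P} (hn : σ.Nodup) {x y : P} (h : [x, y].Sublist σ)
    (h' : [y, x].Sublist σ) : False := by
  obtain ⟨l, r, rfl⟩ := List.append_of_mem (h.subset (show x ∈ [x, y] by simp))
  have h1 := (bef_right hn).mp h
  have h2 := (bef_left hn).mp h'
  rw [List.nodup_append] at hn
  exact hn.2.2 y h2 y (by simp [h1]) rfl

/-- in a list without repetitions, an ordered list of elements is a sublist -/
theorem sublist_of_bef {σ : List P} (hn : σ.Nodup) :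
    ∀ z : List P, (∀ x ∈ z, x ∈ σ) → z.Pairwise (fun a b => [a, b].Sublist σ) → z.Sublist σ := by
  intro z
  induction z with
  | nil => intro _ _; exact List.nil_sublist _
  | cons a z ih =>
    intro hz hp
    obtain ⟨hp1, hp2⟩ := List.pairwise_cons.mp hp
    have hzs := ih (fun x hx => hz x (List.mem_cons_of_mem _ hx)) hp2
    obtain ⟨l, r, rfl⟩ := List.append_of_mem (hz a (by simp))
    have hzr : ∀ x ∈ z, x ∈ r := fun x hx => (bef_right hn).mp (hp1 x hx)
    rw [List.sublist_append_iff] at hzs
    obtain ⟨z1, z2, rfl, h1, h2⟩ := hzs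
    rw [List.nodup_append] at hn
    have hz1 : z1 = [] := by
      cases z1 with
      | nil => rfl
      | cons y z1 =>
        have e1 : y ∈ l := h1.subset (by simp)
        have e2 : y ∈ r := hzr y (by simp)
        exact absurd rfl (hn.2.2 y e1 y (by simp [e2]))
    subst hz1
    rw [List.nil_append] at *
    have har : a ∉ r := (List.nodup_cons.mp hn.2.1).1
    have h3 : z2.Sublist r := by
      cases z2 with
      | nil => exact List.nil_sublist _
      | cons y z2 =>
        rcases List.cons_sublist_cons'.mp h2 with h3 | ⟨h3, _⟩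
        · exact h3
        · exact absurd (h3 ▸ hzr y (by simp)) har
    exact (h3.cons₂ a).trans (List.sublist_append_right _ _)

/-- the gap of an element -/
theorem exists_gap {σ L : List P} {y : P} (hn : σ.Nodup) (hy : y ∈ σ) (hyL : y ∉ L)
    (hL : L.Sublist σ) : ∃ p q, L = p ++ q ∧ (p ++ y :: q).Sublist σ := by
  obtain ⟨l, r, rfl⟩ := List.append_of_mem hy
  rw [List.sublist_append_iff] at hL
  obtain ⟨p, q, rfl, h1, h2⟩ := hL
  refine ⟨p, q, rfl, h1.append ?_⟩
  have : q.Sublist r := by
    cases q with
    | nil => exact List.nil_sublist _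
    | cons x q =>
      rcases List.cons_sublist_cons'.mp h2 with h3 | ⟨h3, _⟩
      · exact h3
      · subst h3; simp at hyL
  exact this.cons₂ y

/-- insertion of a block -/
theorem block {σ p q w : List P} (hn : σ.Nodup) (hL : (p ++ q).Sublist σ) (hw : w.Sublist σ)
    (h : ∀ y ∈ w, (p ++ y :: q).Sublist σ) : (p ++ w ++ q).Sublist σ := by
  apply sublist_of_bef hn
  · intro x hx
    rcases List.mem_append.mp hx with hx | hx
    · rcases List.mem_append.mp hx with hx | hx
      · exact hL.subset (List.mem_append_left _ hx)
      · exact hw.subset hx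
    · exact hL.subset (List.mem_append_right _ hx)
  · have e1 : ∀ z : List P, z.Sublist σ → z.Pairwise (fun a b => [a, b].Sublist σ) := by
      intro z hz
      rw [List.pairwise_iff_forall_sublist]
      intro a b hab
      exact hab.trans hz
    rw [List.pairwise_append, List.pairwise_append]
    refine ⟨⟨e1 p ((List.sublist_append_left p q).trans hL), e1 w hw, ?_⟩,
      e1 q ((List.sublist_append_right p q).trans hL), ?_⟩
    · intro a ha b hb
      have : [a, b].Sublist (p ++ b :: q) := by
        have h1 : [a].Sublist p := List.singleton_sublist.mpr ha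
        have h2 : [b].Sublist (b :: q) := by simp
        exact h1.append h2
      exact this.trans (h b hb)
    · intro a ha b hb
      have hb1 : [b].Sublist q := List.singleton_sublist.mpr hb
      rcases List.mem_append.mp ha with ha | ha
      · have h1 : [a].Sublist p := List.singleton_sublist.mpr ha
        exact (h1.append hb1).trans hL
      · have h1 : [a, b].Sublist (a :: q) := hb1.cons₂ a
        exact (h1.trans (List.sublist_append_right p _)).trans (h a ha)

/-- a longest common sublist -/
theorem exists_longest {σ τ L0 : List P} (h1 : L0.Sublist σ) (h2 : L0.Sublist τ) :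
    ∃ L : List P, L.Sublist σ ∧ L.Sublist τ ∧ L0.length ≤ L.length ∧
      ∀ L' : List P, L'.Sublist σ → L'.Sublist τ → L'.length ≤ L.length := by
  set S : Set ℕ := {n | ∃ L : List P, L.Sublist σ ∧ L.Sublist τ ∧ L.length = n} with hS
  have hb : BddAbove S := ⟨σ.length, by
    rintro n ⟨L, h1, _, rfl⟩
    exact h1.length_le⟩
  have hne : S.Nonempty := ⟨_, L0, h1, h2, rfl⟩
  obtain ⟨L, hL1, hL2, hL3⟩ := Nat.sSup_mem hne hb
  refine ⟨L, hL1, hL2, ?_, ?_⟩
  · rw [hL3]
    exact le_csSup hb ⟨L0, h1, h2, rfl⟩
  · intro L' h1' h2'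
    rw [hL3]
    exact le_csSup hb ⟨L', h1', h2', rfl⟩

end Pool.Agent.U705.RC
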