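import Pool.Agent.U705.RC.Bef

open Pool.Agent.R795.Min

namespace Pool.Agent.U705.RC

variable {A B : Type} [DecidableEq A] {N : ℕ} {F : Multiset A → List A → B} {P : Type}

theorem rotE (h : InvRot N F) (p : List A) : ∀ q : List A, E N F (p ++ q) (q ++ p) := by
  induction p with
  | nil => intro q; rw [List.nil_append, List.append_nil]; exact E.refl q
  | cons x p ih =>
    intro q
    have h1 : E N F (x :: (p ++ q)) (p ++ q ++ [x]) := h x (p ++ q)
    have h2 := ih (q ++ [x])
    rw [List.append_assoc] at h1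
    have h3 : q ++ x :: p = q ++ [x] ++ p := by simp
    rw [List.cons_append, h3]
    refine h1.trans ?_ h2
    rw [← List.append_assoc]
    exact (List.perm_append_singleton x (p ++ q)).symm

theorem eqv_rot (h : InvRot N F) {σ t1 t2 : List P} (he : Eqv N F σ (t1 ++ t2)) :
    Eqv N F σ (t2 ++ t1) := by
  intro u u' hu hu' hp ℓ
  rw [List.sublist_append_iff] at hu'
  obtain ⟨v2, v1, rfl, h2, h1⟩ := hu'
  have hp' : u.Perm (v1 ++ v2) := hp.trans List.perm_append_comm
  have e1 := he u (v1 ++ v2) hu (h1.append h2) hp' ℓ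
  have e2 : E N F ((v1 ++ v2).map ℓ) ((v2 ++ v1).map ℓ) := by
    rw [List.map_append, List.map_append]
    exact rotE h _ _
  exact e1.trans (hp'.map ℓ) e2

theorem invRev_of_block [Fintype A] {σ τ w : List P} (hw : w.Nodup) (h1 : w.Sublist σ)
    (h2 : w.reverse.Sublist τ) (hk : Fintype.card A ≤ w.length) (he : Eqv N F σ τ) :
    InvRev N F := by
  classical
  intro s μ hμ hv
  rcases s with _ | ⟨x, s⟩
  · rfl
  have hlen : (x :: s).length ≤ w.length := hv.length_le.trans hk
  have hu : (w.take (x :: s).length).length = (x :: s).length := by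
    rw [List.length_take]; exact min_eq_left hlen
  obtain ⟨ℓ, hℓ, _⟩ := exists_map (fun _ => x) (w.take (x :: s).length)
    (hw.sublist (List.take_sublist _ _)) (x :: s) hu
  have e := he (w.take (x :: s).length) (w.take (x :: s).length).reverse
    ((List.take_sublist _ _).trans h1) ((List.reverse_sublist.mpr (List.take_sublist _ _)).trans h2)
    (List.reverse_perm _).symm ℓ μ hμ (by rw [hℓ]; exact hv)
  rw [List.map_reverse, hℓ] at e
  exact e

theorem eqv_reverse (h : InvRev N F) {σ τ : List P} (he : Eqv N F σ τ) : Eqv N F σ τ.reverse := by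
  intro u u' hu hu' hp ℓ
  have h1 : u'.reverse.Sublist τ := by
    have := List.reverse_sublist.mpr hu'
    rwa [List.reverse_reverse] at this
  have hp' : u.Perm u'.reverse := hp.trans (List.reverse_perm _).symm
  have e1 := he u u'.reverse hu h1 hp' ℓ
  have e2 := h (u'.reverse.map ℓ)
  rw [← List.map_reverse, List.reverse_reverse] at e2
  exact e1.trans (hp'.map ℓ) e2

theorem isRotated_split {l l' : List P} (h : l.IsRotated l') :
    ∃ t1 t2, l = t1 ++ t2 ∧ l' = t2 ++ t1 := by
  obtain ⟨n, hn, rfl⟩ := List.isRotated_iff_mod.mp h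
  exact ⟨l.take n, l.drop n, (List.take_append_drop n l).symm,
    List.rotate_eq_drop_append_take hn⟩

theorem isRotated_append' (t1 t2 : List P) : (t1 ++ t2).IsRotated (t2 ++ t1) :=
  List.isRotated_append

theorem beta_core (hT : S_TRI) [Fintype A] (hr : InvRot N F) (hna : ¬ InvAll N F)
    {σ τ L0 : List P} (hσ : σ.Nodup) (hτ : τ.Nodup) (hp : σ.Perm τ) (he : Eqv N F σ τ)
    (h1 : L0.Sublist σ) (h2 : L0.Sublist τ) (hL0 : 4 * Fintype.card A + 4 ≤ L0.length) :
    σ.IsRotated τ := by
  set S : Set ℕ := {n | ∃ τ' L : List P, τ.IsRotated τ' ∧ L.Sublist σ ∧ L.Sublist τ' ∧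
    L.length = n} with hS
  have hb : BddAbove S := ⟨σ.length, by
    rintro n ⟨τ', L, _, h1, _, rfl⟩
    exact h1.length_le⟩
  have hmem : L0.length ∈ S := ⟨τ, L0, List.IsRotated.refl τ, h1, h2, rfl⟩
  obtain ⟨τ', L, hrot, hL1, hL2, hL3⟩ := Nat.sSup_mem ⟨_, hmem⟩ hb
  have hmax : ∀ (τ'' L' : List P), τ'.IsRotated τ'' → L'.Sublist σ → L'.Sublist τ'' →
      L'.length ≤ L.length := by
    intro τ'' L' h3 h4 h5
    rw [hL3]
    exact le_csSup hb ⟨τ'', L', hrot.trans h3, h4, h5, rfl⟩
  have hLlen : 4 * Fintype.card A + 4 ≤ L.length := by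
    rw [hL3]
    exact hL0.trans (le_csSup hb hmem)
  have hτ' : τ'.Nodup := hrot.nodup_iff.mp hτ
  have hp' : σ.Perm τ' := hp.trans hrot.perm
  have he' : Eqv N F σ τ' := by
    obtain ⟨t1, t2, e1, e2⟩ := isRotated_split hrot
    rw [e2]
    apply eqv_rot hr
    rw [← e1]
    exact he
  have hall : ∀ y ∈ σ, y ∈ L := by
    intro y hy
    by_contra hyL
    obtain ⟨p, q, e1, g1⟩ := exists_gap hσ hy hyL hL1
    obtain ⟨p', q', e2, g2⟩ := exists_gap hτ' (hp'.mem_iff.mp hy) hyL hL2
    have hne : p.length ≠ p'.length := by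
      intro hpp
      obtain ⟨rfl, rfl⟩ := List.append_inj (e1.symm.trans e2) hpp
      have := hmax τ' (p ++ y :: q) (List.IsRotated.refl _) g1 g2
      rw [e1] at this
      simp only [List.length_append, List.length_cons] at this
      omega
    rcases hT A B N F P σ τ' L p q p' q' y hσ hτ' he' hna hLlen e1 e2 g1 g2 hne with h | h | h
    · exact h.1 hr
    · exact h.1 hr
    · rcases h.2 with ⟨rfl, rfl⟩ | ⟨rfl, rfl⟩
      · rw [List.nil_append] at e1 g1
        rw [List.append_nil] at e2
        subst e1 e2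
        obtain ⟨r1, r2, rfl, i1, i2⟩ := List.append_sublist_iff.mp g2
        have := hmax (r2 ++ r1) (y :: L) (isRotated_append' _ _) g1 (i2.append i1)
        simp at this
      · rw [List.nil_append] at e2 g2
        rw [List.append_nil] at e1
        subst e1 e2
        obtain ⟨r1, r2, rfl, i1, i2⟩ := List.append_sublist_iff.mp
          (show ([y] ++ L).Sublist τ' from g2)
        have := hmax (r2 ++ r1) (L ++ [y]) (isRotated_append' _ _) g1 (i2.append i1)
        simp at this
  have hLσ : L = σ := by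
    apply hL1.eq_of_length_le
    exact (hσ.subperm hall).length_le
  have hLτ : L = τ' := by
    apply hL2.eq_of_length_le
    rw [← hp'.length_eq, ← hLσ]
  rw [← hLσ, hLτ]
  exact hrot.symm

theorem t_BETA (hT : S_TRI) (hE : S_ESL) : S_BETA := by
  intro k
  refine ⟨2 ^ ((4 * k + 4) + (4 * k + 4)), ?_⟩
  intro A B _ _ hk N F hr hna P σ τ hσ hτ hp hn he
  rcases hE P (4 * k + 4) (4 * k + 4) σ τ hσ (fun x hx => hp.mem_iff.mp hx) hn with
    ⟨L, h0, h1, h2⟩ | ⟨L, h0, h1, h2⟩
  · left
    exact beta_core hT hr hna hσ hτ hp he h1 h2 (by rw [h0, hk])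
  · right
    have hrev : InvRev N F := invRev_of_block (hσ.sublist h1) h1 h2 (by rw [hk, h0]; omega) he
    refine ⟨hrev, ?_⟩
    have h3 : L.Sublist τ.reverse := by
      have := List.reverse_sublist.mpr h2
      rwa [List.reverse_reverse] at this
    exact beta_core hT hr hna hσ (List.nodup_reverse.mpr hτ) (hp.trans (List.reverse_perm τ).symm)
      (eqv_reverse hrev he) h1 h3 (by rw [h0, hk])

end Pool.Agent.U705.RC
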