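import Pool.Agent.U705.RC.Fill

open Pool.Agent.R795.Min

namespace Pool.Agent.U705.RC

theorem count_content {A : Type} [DecidableEq A] {N : ℕ} (a : Fin N → A) (c : A) :
    (content a).count c = (Finset.univ.filter fun x => a x = c).card := by
  unfold content
  rw [Multiset.count_map, Finset.card_def, Finset.filter_val]
  congr 1
  apply Multiset.filter_congr
  intro x _
  exact eq_comm

theorem dat_good {A B : Type} [DecidableEq A] {N : ℕ} {F : Multiset A → List A → B}
    {g : (Fin N → A) → B} {i j : Fin N} {σ : List (Fin N)} (h : Dat F g i j i σ) (a : Fin N → A)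
    (ha : a i = a j) (u : List (Fin N)) (hu : u.Sublist σ) (hv : Val (content a) (u.map a)) :
    g a = F (content a) (u.map a) := by
  obtain ⟨h1, h2, h3, h4⟩ := h
  have hc : content a = a i ::ₘ a i ::ₘ (σ.map a : Multiset A) := by
    rw [content_eq_map a (j :: i :: σ)]
    · rw [List.map_cons, List.map_cons, ha]
      rfl
    · refine List.nodup_cons.mpr ⟨?_, List.nodup_cons.mpr ⟨?_, h2⟩⟩
      · intro hj
        rcases List.mem_cons.mp hj with h | h
        · exact h1 h.symm
        · exact ((h3 j).mp h).1 rfl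
      · intro hi
        exact ((h3 i).mp hi).2 rfl
    · intro x
      by_cases hxj : x = j
      · simp [hxj]
      · by_cases hxi : x = i
        · simp [hxi]
        · simp [(h3 x).mpr ⟨hxj, hxi⟩]
  rw [hc] at hv ⊢
  exact h4 a ha u hu hv

theorem t_GOOD : S_GOOD := by
  intro k
  refine ⟨3 * k + 1, ?_⟩
  intro A B _ _ hk N F g hN hgood I hI
  classical
  obtain ⟨i, j, hij, hIij⟩ : ∃ i j : Fin N, i < j ∧ I = {i, j} := by
    obtain ⟨x, y, hxy, rfl⟩ := Finset.card_eq_two.mp hI
    rcases lt_or_gt_of_ne hxy with h | h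
    · exact ⟨x, y, h, rfl⟩
    · exact ⟨y, x, h, Finset.pair_comm x y⟩
  obtain ⟨σ, hσ⟩ := hgood i j hij
  have hmem : ∀ x, x ∈ σ ↔ x ∉ I := by
    intro x
    rw [hσ.2.2.1 x, hIij, Finset.mem_insert, Finset.mem_singleton, not_or]
    exact and_comm
  refine ⟨σ, hσ.2.1, hmem, ?_⟩
  intro a u hu hv
  obtain ⟨c, hc⟩ : ∃ c, 3 < (Finset.univ.filter fun x => a x = c).card :=
    Fintype.exists_lt_card_fiber_of_mul_lt_card a (by rw [hk, Fintype.card_fin]; omega)
  have hc2 : 1 < ((Finset.univ.filter fun x => a x = c) \ {i, j}).card := by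
    have h1 := Finset.le_card_sdiff {i, j} (Finset.univ.filter fun x => a x = c)
    have h2 : ({i, j} : Finset (Fin N)).card = 2 := Finset.card_pair hij.ne
    omega
  obtain ⟨i', hi', j', hj', hne⟩ := Finset.one_lt_card.mp hc2
  rw [Finset.mem_sdiff, Finset.mem_filter, Finset.mem_insert, Finset.mem_singleton, not_or]
    at hi' hj'
  have hcu : c ∉ u.map a := by
    intro h
    have := (hv.2 c).mp h
    rw [count_content] at this
    omega
  have hnotu : ∀ x, a x = c → x ∉ u := by
    intro x hx hxu
    exact hcu (hx ▸ List.mem_map_of_mem hxu)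
  have hiu : i ∉ u := fun h => ((hσ.2.2.1 i).mp (hu.subset h)).2 rfl
  have hju : j ∉ u := fun h => ((hσ.2.2.1 j).mp (hu.subset h)).1 rfl
  have hi'u := hnotu i' hi'.1.2
  have hj'u := hnotu j' hj'.1.2
  obtain ⟨a', ha', hmap⟩ := t_FILL A N (u ++ [i, j, i', j']) (u.map a ++ [c, c, c, c])
    (content a) (by unfold content; simp) (by
      rw [List.nodup_append]
      refine ⟨hσ.2.1.sublist hu, ?_, ?_⟩
      · simp only [List.nodup_cons, List.mem_cons, List.not_mem_nil, or_false, not_or,
          not_false_eq_true, List.nodup_nil, and_true]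
        exact ⟨⟨hij.ne, fun h => hi'.2.1 h.symm, fun h => hj'.2.1 h.symm⟩,
          ⟨fun h => hi'.2.2 h.symm, fun h => hj'.2.2 h.symm⟩, hne⟩
      · intro x hx y hy hxy
        subst hxy
        simp only [List.mem_cons, List.not_mem_nil, or_false] at hy
        rcases hy with rfl | rfl | rfl | rfl
        · exact hiu hx
        · exact hju hx
        · exact hi'u hx
        · exact hj'u hx) (by simp) (by
      rw [Multiset.le_iff_count]
      intro x
      rw [Multiset.coe_count, List.count_append]
      by_cases hx : x = c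
      · subst hx
        rw [List.count_eq_zero_of_not_mem hcu, count_content]
        simp only [List.count_cons_self, List.count_nil]
        omega
      · have h0 : [c, c, c, c].count x = 0 := by
          apply List.count_eq_zero_of_not_mem
          simp [hx]
        rw [h0, add_zero]
        have := Multiset.le_iff_count.mp hv.le x
        rwa [Multiset.coe_count] at this)
  rw [List.map_append] at hmap
  obtain ⟨hm1, hm2⟩ := List.append_inj hmap (by simp)
  simp only [List.map_cons, List.map_nil, List.cons.injEq, and_true] at hm2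
  obtain ⟨e1, e2, e3, e4⟩ := hm2
  have hagree : ∀ x ∈ u, a' x = a x := fun x hx => List.map_inj_left.mp hm1 x hx
  have r1 : g a' = F (content a) (u.map a) := by
    have := dat_good hσ a' (by rw [e1, e2]) u hu (by rw [ha', hm1]; exact hv)
    rw [this, ha', hm1]
  -- the pair J
  obtain ⟨i2, j2, hij2, hi2, hj2, hi2', hj2', hi2u, hj2u⟩ : ∃ i2 j2 : Fin N, i2 < j2 ∧ a i2 = c ∧ a j2 = c ∧
      a' i2 = c ∧ a' j2 = c ∧ i2 ∉ u ∧ j2 ∉ u := by
    rcases lt_or_gt_of_ne hne with h | h
    · exact ⟨i', j', h, hi'.1.2, hj'.1.2, e3, e4, hi'u, hj'u⟩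
    · exact ⟨j', i', h, hj'.1.2, hi'.1.2, e4, e3, hj'u, hi'u⟩
  obtain ⟨τ, hτ⟩ := hgood i2 j2 hij2
  set u2 := τ.filter (fun x => x ∈ u) with hu2
  have hperm : u2.Perm u := by
    rw [List.perm_ext_iff_of_nodup (hτ.2.1.filter _) (hσ.2.1.sublist hu)]
    intro x
    rw [List.mem_filter, hτ.2.2.1 x]
    simp only [decide_eq_true_eq]
    refine ⟨fun h => h.2, fun h => ⟨⟨?_, ?_⟩, h⟩⟩
    · rintro rfl; exact hj2u h
    · rintro rfl; exact hi2u h
  have hsub : u2.Sublist τ := List.filter_sublist
  have hag2 : u2.map a' = u2.map a := by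
    apply List.map_congr_left
    intro x hx
    exact hagree x (hperm.mem_iff.mp hx)
  have r2 := dat_good hτ a (by rw [hi2, hj2]) u2 hsub (hv.perm (hperm.symm.map a))
  have r3 := dat_good hτ a' (by rw [hi2', hj2']) u2 hsub
    (by rw [ha', hag2]; exact hv.perm (hperm.symm.map a))
  rw [ha', hag2] at r3
  rw [r2, ← r3, r1]

end Pool.Agent.U705.RC
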