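import Pool.Agent.U705.RC.Defs
import Pool.Agent.U705.RC.Good

open Function Pool.Agent.R795.Min

namespace Pool.Agent.U705.RC

variable {A B : Type} [DecidableEq A]

theorem filter_val {μ : Multiset A} {l : List A} (h : ∀ x, μ.count x = 1 → l.count x = 1) :
    Val μ (l.filter fun x => μ.count x = 1) := by
  constructor
  · rw [List.nodup_iff_count_le_one]
    intro x
    by_cases hx : μ.count x = 1
    · calc (l.filter fun x => μ.count x = 1).count x ≤ l.count x := List.filter_sublist.count_le _
        _ ≤ 1 := (h x hx).le
    · rw [List.count_eq_zero_of_not_mem]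
      · exact Nat.zero_le _
      · rw [List.mem_filter]; simp [hx]
  · intro x
    rw [List.mem_filter]
    constructor
    · rintro ⟨_, h2⟩
      simpa using h2
    · intro hx
      refine ⟨?_, by simpa using hx⟩
      rw [← List.count_pos_iff, h x hx]
      exact one_pos

theorem filter_eq_of_val {P : Type} {μ : Multiset A} {a : P → A} {σ u : List P}
    (h : ∀ x, μ.count x = 1 → (σ.map a).count x = 1) (hu : u.Sublist σ) (hv : Val μ (u.map a)) :
    (σ.map a).filter (fun x => μ.count x = 1) = u.map a := by
  have h1 : (u.map a).filter (fun x => μ.count x = 1) = u.map a := by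
    rw [List.filter_eq_self]
    intro x hx
    simpa using (hv.2 x).mp hx
  have h2 : (u.map a).Sublist ((σ.map a).filter fun x => μ.count x = 1) := by
    rw [← h1]
    exact (hu.map a).filter _
  symm
  apply h2.eq_of_length_le
  apply List.Subperm.length_le
  apply List.Nodup.subperm (filter_val h).1
  intro x hx
  exact (hv.2 x).mpr (((filter_val h).2 x).mp hx)

theorem count_coe_ofFn {N : ℕ} (b : Fin N → A) (x : A) :
    (List.ofFn b).count x = (content b).count x := by
  rw [count_ofFn, count_content]

theorem sing_val {N : ℕ} (b : Fin N → A) : Val (content b) (sing b) := by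
  have : sing b = (List.ofFn b).filter fun x => (content b).count x = 1 := by
    unfold sing
    simp only [count_coe_ofFn]
  rw [this]
  exact filter_val fun x hx => by rw [count_coe_ofFn, hx]

open Classical in
/-- the function on contents and singleton lists -/
noncomputable def Fof {N : ℕ} (f : (Fin N → A) → B) (b0 : B) (μ : Multiset A) (s : List A) : B :=
  if h : ∃ b : Fin N → A, content b = μ ∧ sing b = s then f h.choose else b0

theorem Fof_eq {N : ℕ} {f : (Fin N → A) → B} (hf : DetCS f) (b0 : B) (b : Fin N → A) :
    f b = Fof f b0 (content b) (sing b) := by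
  have h : ∃ b' : Fin N → A, content b' = content b ∧ sing b' = sing b := ⟨b, rfl, rfl⟩
  unfold Fof
  rw [dif_pos h]
  exact (hf _ _ h.choose_spec.1 h.choose_spec.2).symm

theorem finRange_filter_ne {n : ℕ} (j : Fin (n + 1)) :
    (List.finRange (n + 1)).filter (fun x => x ≠ j) = (List.finRange n).map j.succAbove := by
  have s1 : ((List.finRange (n + 1)).filter (fun x => x ≠ j)).Pairwise (· < ·) :=
    (List.pairwise_lt_finRange _).filter _
  have s2 : ((List.finRange n).map j.succAbove).Pairwise (· < ·) := by
    rw [List.pairwise_map]
    exact (List.pairwise_lt_finRange _).imp fun h => Fin.strictMono_succAbove j h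
  apply List.Perm.eq_of_pairwise (le := (· < ·)) _ s1 s2
  · rw [List.perm_ext_iff_of_nodup (s1.imp fun h => h.ne) (s2.imp fun h => h.ne)]
    intro x
    rw [List.mem_filter, List.mem_map]
    simp only [List.mem_finRange, true_and, decide_eq_true_eq]
    constructor
    · intro h
      exact Fin.exists_succAbove_eq h
    · rintro ⟨y, rfl⟩
      exact Fin.succAbove_ne j y
  · intro x y _ _ h1 h2
    exact absurd h2 h1.asymm

/-- content and singletons of an argument of a minor -/
theorem insert_facts {n : ℕ} (i1 : Fin n) (j1 : Fin (n + 1)) (x : Fin n → A) :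
    content (j1.insertNth (x i1) x : Fin (n + 1) → A) =
      x i1 ::ₘ x i1 ::ₘ ((((List.finRange n).filter fun t => t ≠ i1).map x : List A) : Multiset A) ∧
    sing (j1.insertNth (x i1) x : Fin (n + 1) → A) =
      ((((List.finRange n).filter fun t => t ≠ i1).map x)).filter
        fun y => (content (j1.insertNth (x i1) x : Fin (n + 1) → A)).count y = 1 := by
  set b : Fin (n + 1) → A := j1.insertNth (x i1) x with hb
  have hbj : b j1 = x i1 := by rw [hb]; simp
  have hbs : ∀ t, b (j1.succAbove t) = x t := by intro t; rw [hb]; simp
  have hc : content b = x i1 ::ₘ x i1 ::ₘ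
      ((((List.finRange n).filter fun t => t ≠ i1).map x : List A) : Multiset A) := by
    rw [content_eq_map b (j1 :: j1.succAbove i1 ::
      (((List.finRange n).filter fun t => t ≠ i1).map j1.succAbove))]
    · rw [List.map_cons, List.map_cons, hbj, hbs, List.map_map]
      have : (b ∘ j1.succAbove) = x := funext hbs
      rw [this]
      rfl
    · refine List.nodup_cons.mpr ⟨?_, List.nodup_cons.mpr ⟨?_, ?_⟩⟩
      · intro h
        rcases List.mem_cons.mp h with h | h
        · exact Fin.succAbove_ne j1 i1 h.symm
        · obtain ⟨y, _, hy⟩ := List.mem_map.mp h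
          exact Fin.succAbove_ne j1 y hy
      · intro h
        obtain ⟨y, hy1, hy2⟩ := List.mem_map.mp h
        have := Fin.succAbove_right_injective hy2
        subst this
        simp at hy1
      · exact ((List.nodup_finRange n).filter _).map Fin.succAbove_right_injective
    · intro y
      by_cases hy : y = j1
      · simp [hy]
      · obtain ⟨t, rfl⟩ := Fin.exists_succAbove_eq hy
        by_cases ht : t = i1
        · simp [ht]
        · refine List.mem_cons_of_mem _ (List.mem_cons_of_mem _ (List.mem_map_of_mem ?_))
          rw [List.mem_filter]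
          simp [ht]
  refine ⟨hc, ?_⟩
  have hbig : (content b).count (x i1) ≠ 1 := by
    rw [hc]
    simp only [Multiset.count_cons_self]
    omega
  rw [sing_eq]
  simp only [count_coe_ofFn]
  have e1 : (List.finRange (n + 1)).filter (fun i => (content b).count (b i) = 1) =
      ((List.finRange (n + 1)).filter (fun y => y ≠ j1)).filter
        (fun i => (content b).count (b i) = 1) := by
    rw [List.filter_filter]
    apply List.filter_congr
    intro y _
    by_cases hy : y = j1
    · subst hy
      rw [hbj]
      simp [hbig]
    · simp [hy]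
  rw [e1, finRange_filter_ne, List.filter_map, List.map_map]
  have e2 : (b ∘ j1.succAbove) = x := funext hbs
  rw [e2, List.filter_map, List.filter_filter]
  congr 1
  apply List.filter_congr
  intro t _
  simp only [Function.comp, hbs]
  by_cases ht : t = i1
  · subst ht
    simp [hbig]
  · simp [ht]

theorem t_DECK {n : ℕ} {f g : (Fin (n + 1) → A) → B} (hf : DetCS f) (b0 : B)
    (h : deck g = deck f) (i j : Fin (n + 1)) (hij : i < j) :
    ∃ c σ, Dat (Fof f b0) g i j c σ := by
  have hilast : i ≠ Fin.last n := by
    rintro rfl
    exact absurd hij (not_lt.mpr (Fin.le_last j))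
  obtain ⟨i', rfl⟩ : ∃ i' : Fin n, i'.castSucc = i := Fin.exists_castSucc_eq.mpr hilast
  have hp : (i', j) ∈ pairs n := by
    rw [pairs, Finset.mem_filter]
    exact ⟨Finset.mem_univ _, hij⟩
  have hmem : Quotient.mk (simSetoid A B n) (minor g i' j) ∈ deck g :=
    Multiset.mem_map.mpr ⟨_, hp, rfl⟩
  rw [h] at hmem
  obtain ⟨⟨i1, j1⟩, _, he⟩ := Multiset.mem_map.mp hmem
  have hsim : Similar (minor g i' j) (minor f i1 j1) :=
    (simSetoid A B n).symm (Quotient.exact he)
  obtain ⟨τ, hτ⟩ := hsim
  have hinj : Injective fun t => j.succAbove (τ t) :=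
    Fin.succAbove_right_injective.comp τ.injective
  set σ0 := (List.finRange n).filter fun t => t ≠ i1 with hσ0
  refine ⟨j.succAbove (τ i1), σ0.map fun t => j.succAbove (τ t), ?_, ?_, ?_, ?_⟩
  · exact Fin.succAbove_ne j _
  · exact ((List.nodup_finRange n).filter _).map hinj
  · intro x
    rw [List.mem_map]
    constructor
    · rintro ⟨t, ht, rfl⟩
      rw [hσ0, List.mem_filter] at ht
      refine ⟨Fin.succAbove_ne j _, fun h => ?_⟩
      have := hinj h
      subst this
      simp at ht
    · rintro ⟨h1, h2⟩
      obtain ⟨y, rfl⟩ := Fin.exists_succAbove_eq h1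
      refine ⟨τ.symm y, ?_, by simp⟩
      rw [hσ0, List.mem_filter]
      simp only [List.mem_finRange, true_and, decide_eq_true_eq]
      rintro rfl
      simp at h2
  · intro a ha u hu hv
    set x : Fin n → A := fun t => a (j.succAbove (τ t)) with hx
    have hga : g a = f (j1.insertNth (x i1) x) := by
      have h1 : g a = minor g i' j (fun t => a (j.succAbove t)) := by
        unfold minor
        congr 1
        funext t
        by_cases ht : t = j
        · subst ht
          rw [Fin.insertNth_apply_same]
          show a t = a (t.succAbove i')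
          rw [Fin.succAbove_of_castSucc_lt _ _ hij, ha]
        · obtain ⟨y, rfl⟩ := Fin.exists_succAbove_eq ht
          rw [Fin.insertNth_apply_succAbove]
      rw [h1, hτ]
      rfl
    obtain ⟨hc, hs⟩ := insert_facts i1 j1 x
    rw [hga, Fof_eq hf b0, hs, hc]
    have hmap : σ0.map x = (σ0.map fun t => j.succAbove (τ t)).map a := by
      rw [List.map_map]
      rfl
    rw [hmap]
    congr 1
    apply filter_eq_of_val _ hu hv
    intro y hy
    rw [Multiset.count_cons, Multiset.count_cons, Multiset.coe_count] at hy
    split_ifs at hy with h1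
    · omega
    · omega

end Pool.Agent.U705.RC
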