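import Pool.Agent.R795.Min.Main

/-!
# Identification minors, decks, reconstructibility
-/

open Function Finset Pool.Agent.R795.Min

namespace Pool.Agent.U705.RC

variable {A B : Type}

/-- Similar functions: they differ by a permutation of the arguments. -/
def Similar {n : ℕ} (f g : (Fin n → A) → B) : Prop :=
  ∃ τ : Equiv.Perm (Fin n), ∀ a : Fin n → A, f a = g (fun k => a (τ k))

/-- Similarity as an equivalence relation. -/
def simSetoid (A B : Type) (n : ℕ) : Setoid ((Fin n → A) → B) where
  r := Similar
  iseqv :=
    { refl := fun f => ⟨1, fun a => rfl⟩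
      symm := by
        rintro f g ⟨τ, h⟩
        refine ⟨τ.symm, fun a => ?_⟩
        rw [h]
        congr 1
        funext k
        simp
      trans := by
        rintro f g h ⟨τ, h1⟩ ⟨τ', h2⟩
        refine ⟨τ'.trans τ, fun a => ?_⟩
        rw [h1, h2]
        rfl }

/-- The identification minor `f_I` of a function of arity `n + 1` for `I = {i, j}` with `i < j`:
`f_I(a_1, …, a_n) = f(a_1, …, a_{j-1}, a_i, a_j, …, a_n)`. -/
def minor {n : ℕ} (f : (Fin (n + 1) → A) → B) (i : Fin n) (j : Fin (n + 1)) : (Fin n → A) → B :=
  fun a => f (j.insertNth (a i) a)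

/-- The two-element subsets `{i, j}`, `i < j`, of the set of the `n + 1` arguments. -/
def pairs (n : ℕ) : Finset (Fin n × Fin (n + 1)) := univ.filter fun p => p.1.castSucc < p.2

/-- The deck: the multiset of the similarity classes of the identification minors. -/
def deck {n : ℕ} (f : (Fin (n + 1) → A) → B) : Multiset (Quotient (simSetoid A B n)) :=
  (pairs n).val.map fun p => Quotient.mk (simSetoid A B n) (minor f p.1 p.2)

/-- A function of arity `n + 1` is reconstructible if every function with the same deck is
similar to it. -/
def Reconstructible {n : ℕ} (f : (Fin (n + 1) → A) → B) : Prop :=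
  ∀ g : (Fin (n + 1) → A) → B, deck g = deck f → Similar g f

end Pool.Agent.U705.RC
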