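import Pool.Agent.U705.RC.Stm

open Pool.Agent.R795.Min

namespace Pool.Agent.U705.RC

theorem exists_map {P A : Type} [DecidableEq P] (d : P → A) (v : List P) (hv : v.Nodup) :
    ∀ (w : List A), v.length = w.length → ∃ ℓ : P → A, v.map ℓ = w ∧ ∀ x, x ∉ v → ℓ x = d x := by
  induction v with
  | nil =>
    intro w hw
    refine ⟨d, ?_, fun _ _ => rfl⟩
    simpa [eq_comm] using hw
  | cons x v ih =>
    intro w hw
    cases w with
    | nil => simp at hw
    | cons y w =>
      obtain ⟨hx, hv'⟩ := List.nodup_cons.mp hv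
      obtain ⟨ℓ, h1, h2⟩ := ih hv' w (by simpa using hw)
      refine ⟨Function.update ℓ x y, ?_, ?_⟩
      · rw [List.map_cons, Function.update_self, ← h1]
        congr 1
        apply List.map_congr_left
        intro z hz
        rw [Function.update_of_ne]
        rintro rfl
        exact hx hz
      · intro z hz
        rw [List.mem_cons, not_or] at hz
        rw [Function.update_of_ne hz.1]
        exact h2 z hz.2

theorem content_eq_map {A : Type} {N : ℕ} (a : Fin N → A) (l : List (Fin N)) (hl : l.Nodup)
    (h : ∀ x, x ∈ l) : content a = (l.map a : Multiset A) := by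
  have : l.Perm (List.finRange N) :=
    (List.perm_ext_iff_of_nodup hl (List.nodup_finRange N)).mpr fun x => by simp [h]
  unfold content
  rw [show ((l.map a : List A) : Multiset A) = ((l : Multiset (Fin N))).map a from rfl]
  congr 1
  rw [Multiset.coe_eq_coe.mpr this]
  rfl

theorem t_FILL : S_FILL := by
  intro A N v w μ hμ hv hvw hwμ
  classical
  set v' := (List.finRange N).filter (fun x => x ∉ v) with hv'
  have hn : (v ++ v').Nodup := by
    rw [List.nodup_append]
    refine ⟨hv, (List.nodup_finRange N).filter _, ?_⟩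
    intro a ha b hb
    rw [hv', List.mem_filter] at hb
    rintro rfl
    simp [ha] at hb
  have hall : ∀ x, x ∈ v ++ v' := by
    intro x
    by_cases hx : x ∈ v
    · exact List.mem_append_left _ hx
    · exact List.mem_append_right _ (by rw [hv', List.mem_filter]; simp [hx])
  have hlen : (v ++ v').length = N := by
    have : (v ++ v').Perm (List.finRange N) :=
      (List.perm_ext_iff_of_nodup hn (List.nodup_finRange N)).mpr fun x => by simp [hall]
    rw [this.length_eq, List.length_finRange]
  set w' := (μ - (w : Multiset A)).toList with hw'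
  have hcard : (w ++ w').length = N := by
    rw [List.length_append, hw', Multiset.length_toList, Multiset.card_sub hwμ, hμ,
      Multiset.coe_card]
    have := Multiset.card_le_card hwμ
    rw [hμ, Multiset.coe_card] at this
    omega
  have hsum : ((w ++ w' : List A) : Multiset A) = μ := by
    rw [← Multiset.coe_add, hw', Multiset.coe_toList, add_tsub_cancel_of_le hwμ]
  rcases Nat.eq_zero_or_pos N with h0 | h0
  · subst h0
    refine ⟨Fin.elim0, ?_, ?_⟩
    · rw [Multiset.card_eq_zero] at hμ
      rw [hμ]
      rfl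
    · have hv0 : v = [] := by
        cases v with
        | nil => rfl
        | cons x _ => exact x.elim0
      subst hv0
      simpa [eq_comm] using hvw
  · have hne : 0 < Multiset.card μ := by omega
    obtain ⟨x0, _⟩ := Multiset.card_pos_iff_exists_mem.mp hne
    obtain ⟨a, ha, _⟩ := exists_map (fun _ => x0) (v ++ v') hn (w ++ w') (by rw [hlen, hcard])
    refine ⟨a, ?_, ?_⟩
    · rw [content_eq_map a (v ++ v') hn hall, ha, hsum]
    · rw [List.map_append] at ha
      exact (List.append_inj ha (by simpa using hvw)).1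

section basic

variable {A B : Type} [DecidableEq A] {N : ℕ} {F : Multiset A → List A → B}

theorem Val.le {μ : Multiset A} {s : List A} (h : Val μ s) : (s : Multiset A) ≤ μ := by
  rw [Multiset.le_iff_count]
  intro x
  by_cases hx : x ∈ s
  · rw [(h.2 x).mp hx, Multiset.coe_count, List.count_eq_one_of_mem h.1 hx]
  · rw [Multiset.coe_count, List.count_eq_zero_of_not_mem hx]
    exact Nat.zero_le _

theorem Val.perm {μ : Multiset A} {s s' : List A} (h : Val μ s) (hs : s.Perm s') : Val μ s' :=
  ⟨hs.nodup_iff.mp h.1, fun x => by rw [← hs.mem_iff]; exact h.2 x⟩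

theorem Val.length_le [Fintype A] {μ : Multiset A} {s : List A} (h : Val μ s) :
    s.length ≤ Fintype.card A := List.Nodup.length_le_card h.1

theorem E.symm {s s' : List A} (h : E N F s s') (hs : s.Perm s') : E N F s' s :=
  fun μ hμ hv => (h μ hμ (hv.perm hs.symm)).symm

theorem E.trans {s s' s'' : List A} (h : E N F s s') (hs : s.Perm s') (h' : E N F s' s'') :
    E N F s s'' :=
  fun μ hμ hv => (h μ hμ hv).trans (h' μ hμ (hv.perm hs))

theorem E.refl (s : List A) : E N F s s := fun _ _ _ => rfl

theorem Eqv.symm {P : Type} {σ τ : List P} (h : Eqv N F σ τ) : Eqv N F τ σ :=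
  fun u u' hu hu' hp ℓ => (h u' u hu' hu hp.symm ℓ).symm (hp.symm.map ℓ)

theorem Eqv.mono {P : Type} {σ τ σ' τ' : List P} (h : Eqv N F σ τ) (h1 : σ'.Sublist σ)
    (h2 : τ'.Sublist τ) : Eqv N F σ' τ' :=
  fun u u' hu hu' hp ℓ => h u u' (hu.trans h1) (hu'.trans h2) hp ℓ

theorem Ch.mono {g : (Fin N → A) → B} {l l' : List (Fin N)} (h : Ch F g l) (h1 : l'.Sublist l) :
    Ch F g l' :=
  fun a u hu hv => h a u (hu.trans h1) hv

end basic

theorem t_C2E : S_C2E := by
  intro A B _ N F g σ τ hσ h1 h2 u u' hu hu' hp ℓ μ hμ hv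
  obtain ⟨a, ha, hua⟩ := t_FILL A N u (u.map ℓ) μ hμ (hσ.sublist hu) (by simp) hv.le
  have hagree : u'.map a = u'.map ℓ := by
    apply List.map_congr_left
    intro x hx
    have hx' : x ∈ u := hp.mem_iff.mpr hx
    exact (List.map_inj_left.mp hua) x hx'
  have e1 := h1 a u hu (by rw [ha, hua]; exact hv)
  have e2 := h2 a u' hu' (by rw [ha, hagree]; exact hv.perm (hp.map ℓ))
  rw [ha, hua] at e1
  rw [ha, hagree] at e2
  rw [← e1, e2]

end Pool.Agent.U705.RC
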