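import Pool.Agent.U705.RC.Deck

open Function Pool.Agent.R795.Min

namespace Pool.Agent.U705.RC

variable {A B : Type} [DecidableEq A]

theorem filter_val_of_all {N : ℕ} (a : Fin N → A) {σ : List (Fin N)} (hn : σ.Nodup)
    (hall : ∀ x, x ∈ σ) :
    Val (content a) ((σ.filter fun x => (content a).count (a x) = 1).map a) := by
  have h1 : (σ.filter fun x => (content a).count (a x) = 1).map a =
      (σ.map a).filter fun y => (content a).count y = 1 := by
    rw [List.filter_map]
    rfl
  rw [h1]
  apply filter_val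
  intro x hx
  rw [content_eq_map a σ hn hall, Multiset.coe_count] at hx
  exact hx

theorem exists_pair [Fintype A] {N : ℕ} (a : Fin N → A) (h : Fintype.card A < N) :
    ∃ i j, i < j ∧ a i = a j := by
  obtain ⟨x, y, hxy, he⟩ := Fintype.exists_ne_map_eq_of_card_lt a (by simpa using h)
  rcases lt_or_gt_of_ne hxy with h' | h'
  · exact ⟨x, y, h', he⟩
  · exact ⟨y, x, h', he.symm⟩

theorem goal_of_invAll [Fintype A] {N : ℕ} {F : Multiset A → List A → B} {g : (Fin N → A) → B}
    (hN : Fintype.card A < N) (hF : InvAll N F) (hC : AllCh F g) : Goal F g := by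
  refine ⟨List.finRange N, List.nodup_finRange N, List.mem_finRange, ?_⟩
  intro a u hu hv
  obtain ⟨i, j, hij, ha⟩ := exists_pair a hN
  obtain ⟨σ, h1, h2, h3⟩ := hC {i, j} (Finset.card_pair hij.ne)
  have hnot : ∀ x ∈ u, x ≠ i ∧ x ≠ j := by
    intro x hx
    have hs : (content a).count (a x) = 1 := (hv.2 _).mp (List.mem_map_of_mem hx)
    rw [count_content, Finset.card_eq_one] at hs
    obtain ⟨y, hy⟩ := hs
    constructor
    · rintro rfl
      have e1 : x ∈ Finset.univ.filter fun z => a z = a x := by simp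
      have e2 : j ∈ Finset.univ.filter fun z => a z = a x := by simp [ha]
      rw [hy, Finset.mem_singleton] at e1 e2
      exact hij.ne (e1.trans e2.symm)
    · rintro rfl
      have e1 : x ∈ Finset.univ.filter fun z => a z = a x := by simp
      have e2 : i ∈ Finset.univ.filter fun z => a z = a x := by simp [ha]
      rw [hy, Finset.mem_singleton] at e1 e2
      exact hij.ne (e2.trans e1.symm)
  set u' := σ.filter fun x => x ∈ u with hu'
  have hp : u'.Perm u := by
    rw [List.perm_ext_iff_of_nodup (h1.filter _) ((List.nodup_finRange N).sublist hu)]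
    intro x
    rw [List.mem_filter, h2, Finset.mem_insert, Finset.mem_singleton]
    simp only [decide_eq_true_eq]
    exact ⟨fun h => h.2, fun h => ⟨fun h' => h'.elim (hnot x h).1 (hnot x h).2, h⟩⟩
  have hv' : Val (content a) (u'.map a) := hv.perm (hp.symm.map a)
  rw [h3 a u' List.filter_sublist hv']
  exact hF _ _ (hp.map a) _ (by unfold content; simp) hv'

theorem similar_of_goal {n : ℕ} {f g : (Fin n → A) → B} (hf : DetCS f) (b0 : B)
    (h : Goal (Fof f b0) g) : Similar g f := by
  obtain ⟨σ, hn, hall, hC⟩ := h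
  have hlen : σ.length = n := by
    have : σ.Perm (List.finRange n) :=
      (List.perm_ext_iff_of_nodup hn (List.nodup_finRange n)).mpr fun x => by simp [hall]
    rw [this.length_eq, List.length_finRange]
  set ρ : Fin n → Fin n := fun t => σ.get (t.cast hlen.symm) with hρ
  have hinj : Injective ρ := by
    intro x y hxy
    have := List.nodup_iff_injective_get.mp hn hxy
    simpa using this
  set e : Equiv.Perm (Fin n) := Equiv.ofBijective ρ (Finite.injective_iff_bijective.mp hinj)
  have hofFn : ∀ a : Fin n → A, List.ofFn (fun t => a (ρ t)) = σ.map a := by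
    intro a
    apply List.ext_getElem
    · simp [hlen]
    · intro t h1 h2
      simp [hρ]
  refine ⟨e, fun a => ?_⟩
  have hv := filter_val_of_all a hn hall
  rw [hC a _ List.filter_sublist hv]
  have h1 : f (fun k => a (e k)) = Fof f b0 (content fun k => a (e k)) (sing fun k => a (e k)) :=
    Fof_eq hf b0 _
  rw [h1, content_comp a e]
  congr 1
  unfold sing
  simp only [count_coe_ofFn, content_comp a e]
  have : List.ofFn (fun k => a (e k)) = σ.map a := hofFn a
  rw [this, List.filter_map]
  rfl

theorem support_dat {N : ℕ} (a : Fin N → A) {i j c : Fin N} {σ : List (Fin N)} (hc : c ≠ j)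
    (hn : σ.Nodup) (hσ : ∀ x, x ∈ σ ↔ x ≠ j ∧ x ≠ c) (ha : a i = a j) (hij : i ≠ j) :
    Multiset.card (a c ::ₘ a c ::ₘ (σ.map a : Multiset A)) = N ∧
    (a c ::ₘ a c ::ₘ (σ.map a : Multiset A)).toFinset = (content a).toFinset ∧
    ∃ u : List (Fin N), u.Sublist σ ∧
      Val (a c ::ₘ a c ::ₘ (σ.map a : Multiset A)) (u.map a) := by
  have hcont : content a = a j ::ₘ a c ::ₘ (σ.map a : Multiset A) := by
    rw [content_eq_map a (j :: c :: σ)]
    · rfl
    · refine List.nodup_cons.mpr ⟨?_, List.nodup_cons.mpr ⟨?_, hn⟩⟩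
      · intro h
        rcases List.mem_cons.mp h with h | h
        · exact hc h.symm
        · exact ((hσ j).mp h).1 rfl
      · intro h
        exact ((hσ c).mp h).2 rfl
    · intro x
      by_cases h1 : x = j
      · simp [h1]
      · by_cases h2 : x = c
        · simp [h2]
        · simp [(hσ x).mpr ⟨h1, h2⟩]
  refine ⟨?_, ?_, ?_⟩
  · have : Multiset.card (content a) = N := by unfold content; simp
    rw [hcont] at this
    simpa using this
  · have hmem : a j ∈ a c ::ₘ (σ.map a : Multiset A) := by
      by_cases hic : i = c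
      · rw [← ha, hic]; simp
      · rw [← ha, Multiset.mem_cons]
        right
        rw [Multiset.mem_coe]
        exact List.mem_map_of_mem ((hσ i).mpr ⟨hij, hic⟩)
    rw [hcont]
    ext x
    simp only [Multiset.mem_toFinset, Multiset.mem_cons] at hmem ⊢
    constructor
    · tauto
    · rintro (rfl | h | h)
      · tauto
      · tauto
      · tauto
  · refine ⟨σ.filter fun x => (a c ::ₘ a c ::ₘ (σ.map a : Multiset A)).count (a x) = 1,
      List.filter_sublist, ?_⟩
    have h1 : (σ.filter fun x => (a c ::ₘ a c ::ₘ (σ.map a : Multiset A)).count (a x) = 1).map a =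
        (σ.map a).filter fun y => (a c ::ₘ a c ::ₘ (σ.map a : Multiset A)).count y = 1 := by
      rw [List.filter_map]
      rfl
    rw [h1]
    apply filter_val
    intro x hx
    rw [Multiset.count_cons, Multiset.count_cons, Multiset.coe_count] at hx
    split_ifs at hx
    · omega
    · omega

theorem main (hAD : S_ADATA) (hBD : S_BDATA) (hBAD : S_BAD) (k : ℕ) :
    ∃ n0 : ℕ, ∀ (A B : Type) [DecidableEq A] [Fintype A], Fintype.card A = k →
      ∀ n : ℕ, n0 ≤ n → ∀ f : (Fin (n + 1) → A) → B, DetCS f → Reconstructible f := by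
  obtain ⟨n1, h1⟩ := hAD k
  obtain ⟨n2, h2⟩ := hBD k
  obtain ⟨n3, h3⟩ := hBAD k
  obtain ⟨n4, h4⟩ := t_GOOD k
  refine ⟨n1 + n2 + n3 + n4 + k, ?_⟩
  intro A B _ _ hk n hn f hf g hdeck
  rcases isEmpty_or_nonempty A with hA | ⟨⟨a0⟩⟩
  · exact ⟨1, fun a => (hA.false (a 0)).elim⟩
  set b0 := f fun _ => a0
  set F := Fof f b0 with hF
  have hdat : ∀ i j : Fin (n + 1), i < j → ∃ c σ, Dat F g i j c σ :=
    fun i j hij => t_DECK hf b0 hdeck i j hij
  have hkN : Fintype.card A < n + 1 := by omega
  by_cases hbad : ∃ i j c : Fin (n + 1), ∃ σ, i < j ∧ c ≠ i ∧ Dat F g i j c σ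
  · have key := h3 A B hk (n + 1) F g (by omega) hdat hbad
    refine ⟨1, fun a => ?_⟩
    obtain ⟨i, j, hij, ha⟩ := exists_pair a hkN
    obtain ⟨c, σ, hD⟩ := hdat i j hij
    obtain ⟨d1, d2, d3, d4⟩ := hD
    obtain ⟨e1, e2, u, e3, e4⟩ := support_dat a d1 d2 d3 ha hij.ne
    rw [d4 a ha u e3 e4]
    show _ = f a
    rw [Fof_eq hf b0 a]
    exact key _ _ _ _ e1 (by unfold content; simp) e4 (sing_val a) e2
  · have hgood : ∀ i j : Fin (n + 1), i < j → ∃ σ, Dat F g i j i σ := by
      intro i j hij
      obtain ⟨c, σ, hD⟩ := hdat i j hij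
      by_cases hc : c = i
      · exact ⟨σ, hc ▸ hD⟩
      · exact absurd ⟨i, j, c, σ, hij, hc, hD⟩ hbad
    have hAll := h4 A B hk (n + 1) F g (by omega) hgood
    apply similar_of_goal hf b0
    by_cases ha : InvAll (n + 1) F
    · exact goal_of_invAll hkN ha hAll
    · by_cases hr : InvRot (n + 1) F
      · exact h2 A B hk (n + 1) F g (by omega) hr ha hAll
      · exact h1 A B hk (n + 1) F g (by omega) hr hAll

end Pool.Agent.U705.RC
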