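import Pool.Agent.R795.Min.Core

/-!
# Project RC (MP_75c0e8_co, question 1, `A` finite): definitions and statements of the packages

`A` = alphabet (`Fintype.card A = k`), `N` = arity, positions `Fin N`; `content a` = multiset of the
entries of `a : Fin N → A`.
-/

open Pool.Agent.R795.Min

namespace Pool.Agent.U705.RC

/-- `s` lists exactly the elements of multiplicity one of the multiset `μ` -/
def Val {A : Type} [DecidableEq A] (μ : Multiset A) (s : List A) : Prop :=
  s.Nodup ∧ ∀ x, x ∈ s ↔ μ.count x = 1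

/-- `F` takes the same value at `s` and `s'` for all multisets of size `N` with singletons `s` -/
def E {A B : Type} [DecidableEq A] (N : ℕ) (F : Multiset A → List A → B) (s s' : List A) : Prop :=
  ∀ μ : Multiset A, Multiset.card μ = N → Val μ s → F μ s = F μ s'

def InvAll {A B : Type} [DecidableEq A] (N : ℕ) (F : Multiset A → List A → B) : Prop :=
  ∀ s s' : List A, s.Perm s' → E N F s s'

def InvRot {A B : Type} [DecidableEq A] (N : ℕ) (F : Multiset A → List A → B) : Prop :=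
  ∀ (x : A) (s : List A), E N F (x :: s) (s ++ [x])

def InvRev {A B : Type} [DecidableEq A] (N : ℕ) (F : Multiset A → List A → B) : Prop :=
  ∀ s : List A, E N F s s.reverse

/-- two orders of positions give the same patterns up to `F` -/
def Eqv {A B : Type} [DecidableEq A] (N : ℕ) (F : Multiset A → List A → B) {P : Type}
    (σ τ : List P) : Prop :=
  ∀ u u' : List P, u.Sublist σ → u'.Sublist τ → u.Perm u' → ∀ ℓ : P → A,
    E N F (u.map ℓ) (u'.map ℓ)

/-- `g` is given by `F` along the list `l` of positions, for all tuples with singletons in `l` -/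
def Ch {A B : Type} [DecidableEq A] {N : ℕ} (F : Multiset A → List A → B) (g : (Fin N → A) → B)
    (l : List (Fin N)) : Prop :=
  ∀ (a : Fin N → A) (u : List (Fin N)), u.Sublist l → Val (content a) (u.map a) →
    g a = F (content a) (u.map a)

/-- the first `Q` elements agree as sets, the last `Q` too, and the middle parts are equal -/
def Close {P : Type} (Q : ℕ) (σ τ : List P) : Prop :=
  ∃ l m r l' r' : List P, σ = l ++ m ++ r ∧ τ = l' ++ m ++ r' ∧ l.Perm l' ∧ r.Perm r' ∧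
    l.length = Q ∧ r.length = Q

/-- what the deck gives for the pair `i, j`: the doubled letter is `a c`, the other letters are
in the order of `σ`; `c = i` is the good case -/
def Dat {A B : Type} [DecidableEq A] {N : ℕ} (F : Multiset A → List A → B) (g : (Fin N → A) → B)
    (i j c : Fin N) (σ : List (Fin N)) : Prop :=
  c ≠ j ∧ σ.Nodup ∧ (∀ x, x ∈ σ ↔ x ≠ j ∧ x ≠ c) ∧
    ∀ a : Fin N → A, a i = a j → ∀ u : List (Fin N), u.Sublist σ →
      Val (a c ::ₘ a c ::ₘ (σ.map a : Multiset A)) (u.map a) →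
      g a = F (a c ::ₘ a c ::ₘ (σ.map a : Multiset A)) (u.map a)

/-- all pairs `I` have a list `σ` of the complement of `I` with `Ch` -/
def AllCh {A B : Type} [DecidableEq A] {N : ℕ} (F : Multiset A → List A → B)
    (g : (Fin N → A) → B) : Prop :=
  ∀ I : Finset (Fin N), I.card = 2 → ∃ σ : List (Fin N), σ.Nodup ∧ (∀ x, x ∈ σ ↔ x ∉ I) ∧ Ch F g σ

/-- the goal for `F`, `g` -/
def Goal {A B : Type} [DecidableEq A] {N : ℕ} (F : Multiset A → List A → B)
    (g : (Fin N → A) → B) : Prop :=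
  ∃ σ : List (Fin N), σ.Nodup ∧ (∀ x, x ∈ σ) ∧ Ch F g σ

/-! ### package GEN: generation facts -/

def S_GEN : Prop :=
  ∀ (A B : Type) [DecidableEq A] (N : ℕ) (F : Multiset A → List A → B),
    ((∀ (s1 : List A) (x y : A) (s3 : List A),
      E N F (s1 ++ x :: y :: s3) (s1 ++ y :: x :: s3)) → InvAll N F) ∧
    ((∀ (x : A) (s2 s3 : List A), E N F (x :: (s2 ++ s3)) (s2 ++ x :: s3)) → InvAll N F) ∧
    ((∀ (x : A) (s1 s2 : List A), E N F (s1 ++ (s2 ++ [x])) (s1 ++ x :: s2)) → InvAll N F) ∧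
    (InvRot N F → (∀ (x y : A) (s : List A), E N F (x :: y :: s) (y :: x :: s)) → InvAll N F) ∧
    (InvRot N F → (∀ (x y : A) (s : List A), E N F (s ++ [x, y]) (s ++ [y, x])) → InvAll N F) ∧
    (InvRot N F → (∀ (z x : A) (s : List A), E N F (z :: x :: s) (z :: (s ++ [x]))) →
      InvAll N F) ∧
    (InvRot N F → (∀ (x : A) (s : List A) (z : A), E N F (x :: (s ++ [z])) (s ++ [x, z])) →
      InvAll N F) ∧
    ((∀ s1 s3 : List A, E N F (s1 ++ s3) (s1.reverse ++ s3)) → InvAll N F) ∧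
    ((∀ s1 s3 : List A, E N F (s1 ++ s3) (s1 ++ s3.reverse)) → InvAll N F)

/-! ### package TRI: an element outside a long common sublist -/

def S_TRI : Prop :=
  ∀ (A B : Type) [DecidableEq A] [Fintype A] (N : ℕ) (F : Multiset A → List A → B) (P : Type)
    (σ τ L p q p' q' : List P) (y : P), σ.Nodup → τ.Nodup → Eqv N F σ τ → ¬ InvAll N F →
    4 * Fintype.card A + 4 ≤ L.length → L = p ++ q → L = p' ++ q' →
    (p ++ y :: q).Sublist σ → (p' ++ y :: q').Sublist τ → p.length ≠ p'.length →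
    (¬ InvRot N F ∧ p.length < 2 * Fintype.card A ∧ p'.length < 2 * Fintype.card A) ∨
    (¬ InvRot N F ∧ q.length < 2 * Fintype.card A ∧ q'.length < 2 * Fintype.card A) ∨
    (InvRot N F ∧ ((p = [] ∧ q' = []) ∨ (p' = [] ∧ q = [])))

/-! ### package ESL: Erdős–Szekeres for lists -/

def S_ESL : Prop :=
  ∀ (P : Type) (a b : ℕ) (σ τ : List P), σ.Nodup → (∀ x ∈ σ, x ∈ τ) → 2 ^ (a + b) ≤ σ.length →
    (∃ L : List P, L.length = a ∧ L.Sublist σ ∧ L.Sublist τ) ∨
    (∃ L : List P, L.length = b ∧ L.Sublist σ ∧ L.reverse.Sublist τ)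

/-! ### packages ALPHA, BETA: two equivalent orders -/

def S_ALPHA : Prop :=
  ∀ k : ℕ, ∃ Q n0 : ℕ, ∀ (A B : Type) [DecidableEq A] [Fintype A], Fintype.card A = k →
    ∀ (N : ℕ) (F : Multiset A → List A → B), ¬ InvRot N F →
    ∀ (P : Type) (σ τ : List P), σ.Nodup → τ.Nodup → σ.Perm τ → n0 ≤ σ.length → Eqv N F σ τ →
    Close Q σ τ ∨ (InvRev N F ∧ Close Q σ τ.reverse)

def S_BETA : Prop :=
  ∀ k : ℕ, ∃ n0 : ℕ, ∀ (A B : Type) [DecidableEq A] [Fintype A], Fintype.card A = k →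
    ∀ (N : ℕ) (F : Multiset A → List A → B), InvRot N F → ¬ InvAll N F →
    ∀ (P : Type) (σ τ : List P), σ.Nodup → τ.Nodup → σ.Perm τ → n0 ≤ σ.length → Eqv N F σ τ →
    σ.IsRotated τ ∨ (InvRev N F ∧ σ.IsRotated τ.reverse)

/-! ### packages DIG, MERGE, FILL -/

def S_DIG : Prop :=
  ∀ (V : Type) [DecidableEq V] (S : Finset V) (X : V → Finset V) (D m : ℕ),
    (∀ v ∈ S, (X v).card ≤ D) → m * (2 * D + 1) ≤ S.card →
    ∃ T ⊆ S, T.card = m ∧ ∀ x ∈ T, ∀ y ∈ T, x ≠ y → y ∉ X x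

def S_MERGE : Prop :=
  ∀ (P : Type) [DecidableEq P] (n : ℕ), 4 ≤ n → ∀ (I : Fin n → Finset P) (m : Fin n → List P),
    (∀ i j, i ≠ j → Disjoint (I i) (I j)) → (∀ i, (m i).Nodup) → (∀ i, ∀ x ∈ m i, x ∉ I i) →
    (∀ i j, i ≠ j → (m i).filter (fun x => x ∉ I j) = (m j).filter (fun x => x ∉ I i)) →
    ∃ M : List P, M.Nodup ∧ ∀ i, M.filter (fun x => x ∉ I i) = m i

def S_FILL : Prop :=
  ∀ (A : Type) (N : ℕ) (v : List (Fin N)) (w : List A) (μ : Multiset A), Multiset.card μ = N →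
    v.Nodup → v.length = w.length → (w : Multiset A) ≤ μ →
    ∃ a : Fin N → A, content a = μ ∧ v.map a = w

/-! ### package C2E: two lists with `Ch` are equivalent (from FILL) -/

def S_C2E : Prop :=
  ∀ (A B : Type) [DecidableEq A] (N : ℕ) (F : Multiset A → List A → B) (g : (Fin N → A) → B)
    (σ τ : List (Fin N)), σ.Nodup → Ch F g σ → Ch F g τ → Eqv N F σ τ

/-! ### package GLUE (from MERGE and FILL) -/

def S_GLUE : Prop :=
  ∀ (A B : Type) [DecidableEq A] [Fintype A] (N : ℕ) (F : Multiset A → List A → B)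
    (g : (Fin N → A) → B) (I : Fin (Fintype.card A + 4) → Finset (Fin N))
    (l m r : Fin (Fintype.card A + 4) → List (Fin N)),
    (∀ i, (I i).card = 2) → (∀ i j, i ≠ j → Disjoint (I i) (I j)) →
    (∀ i, (l i ++ m i ++ r i).Nodup) → (∀ i x, x ∈ l i ++ m i ++ r i ↔ x ∉ I i) →
    (∀ i, Ch F g (l i ++ m i ++ r i)) →
    (∀ i j, (l i).Perm (l j)) → (∀ i j, (r i).Perm (r j)) →
    (∀ i j, i ≠ j → (m i).filter (fun x => x ∉ I j) = (m j).filter (fun x => x ∉ I i)) →
    (∀ i, Fintype.card A + 4 ≤ (m i).length) → Goal F g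

/-! ### packages ADATA (from ALPHA, DIG, C2E, GLUE), BDATA (from BETA, C2E, GLUE) -/

def S_ADATA : Prop :=
  ∀ k : ℕ, ∃ n0 : ℕ, ∀ (A B : Type) [DecidableEq A] [Fintype A], Fintype.card A = k →
    ∀ (N : ℕ) (F : Multiset A → List A → B) (g : (Fin N → A) → B), n0 ≤ N → ¬ InvRot N F →
    AllCh F g → Goal F g

def S_BDATA : Prop :=
  ∀ k : ℕ, ∃ n0 : ℕ, ∀ (A B : Type) [DecidableEq A] [Fintype A], Fintype.card A = k →
    ∀ (N : ℕ) (F : Multiset A → List A → B) (g : (Fin N → A) → B), n0 ≤ N → InvRot N F →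
    ¬ InvAll N F → AllCh F g → Goal F g

/-! ### package GOOD (from FILL): all pairs good -/

def S_GOOD : Prop :=
  ∀ k : ℕ, ∃ n0 : ℕ, ∀ (A B : Type) [DecidableEq A] [Fintype A], Fintype.card A = k →
    ∀ (N : ℕ) (F : Multiset A → List A → B) (g : (Fin N → A) → B), n0 ≤ N →
    (∀ i j : Fin N, i < j → ∃ σ, Dat F g i j i σ) → AllCh F g

/-! ### package BAD: one bad pair (from FILL) -/

def S_BAD : Prop :=
  ∀ k : ℕ, ∃ n0 : ℕ, ∀ (A B : Type) [DecidableEq A] [Fintype A], Fintype.card A = k →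
    ∀ (N : ℕ) (F : Multiset A → List A → B) (g : (Fin N → A) → B), n0 ≤ N →
    (∀ i j : Fin N, i < j → ∃ c σ, Dat F g i j c σ) →
    (∃ i j c : Fin N, ∃ σ, i < j ∧ c ≠ i ∧ Dat F g i j c σ) →
    ∀ (μ μ' : Multiset A) (s s' : List A), Multiset.card μ = N → Multiset.card μ' = N →
      Val μ s → Val μ' s' → μ.toFinset = μ'.toFinset → F μ s = F μ' s'

end Pool.Agent.U705.RC
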